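import Pool.Agent.H486.LW.Stm
import Pool.Agent.H486.LP.Stm6
import Pool.Agent.H486.LP.TraceX
import Pool.Agent.H486.LP.P6
import Pool.Agent.H486.LP.P7
import Pool.Agent.H486.LP.P11
import Pool.Agent.H486.LP.P12
import Pool.Agent.H486.LP.P13
import Pool.Agent.H486.LP.Qb

/-!
# LW-W5: Weyl's bound for the number of the cuspidal eigenvectors of bounded spectral parameter
-/

set_option autoImplicit false

open UpperHalfPlane MeasureTheory Metric ModularGroup CongruenceSubgroup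
open scoped MatrixGroups ENNReal Modular Topology NNReal ComplexConjugate Real

namespace Pool.Agent.H81.LW

open Pool.Agent.H369R2 Pool.Agent.N799.DT Pool.Agent.H486.LF Pool.Agent.H486.LG
open Pool.Agent.H486.LP Pool.Agent.H486.LPp Pool.Agent.H486.LW

noncomputable section

lemma sQ_one_coe (γ : SL(2, ℤ)) : sQ 1 (γ : Mt) = P11.gR γ := by
  apply Subtype.ext
  have hdet : ((γ : SL(2, ℤ)) : Mt).det = ((1 : ℕ) : ℤ) ^ 2 := by
    rw [γ.2]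
    norm_num
  rw [P11.sQ_val 1 _ one_pos hdet, P11.gR_val, Nat.cast_one, inv_one, one_smul]

lemma mem_del_one {Γ : Subgroup SL(2, ℤ)} (N : ℕ) {γ : SL(2, ℤ)} (hγ : γ ∈ Γ) :
    (γ : Mt) ∈ Del Γ N 1 := by
  refine ⟨?_, γ, hγ, fun i j => ?_⟩
  · rw [γ.2]
    norm_num
  · rw [Nat.cast_one, one_mul]
    exact ⟨0, by ring⟩

/-- the geometric side at one point -/
theorem point_le1 {Γ : Subgroup SL(2, ℤ)} {N : ℕ} (hN : 0 < N) (hΓ : Gamma N ≤ Γ) {ρ : ℝ}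
    (hρ : 0 < ρ) {k : ℕ} (Λ : Fin k → ℝ) (e : Fin k → LW N) (he : Orthonormal ℂ e)
    (hinv : ∀ i, ∀ γ ∈ Γ, ∀ z : ℍ, (e i : ℍ → ℂ) (γ • z) = (e i : ℍ → ℂ) z)
    (hΛ : ∀ i, ∀ z : ℍ, Av ρ (e i : ℍ → ℂ) z = (Λ i : ℂ) * (e i : ℍ → ℂ) z)
    (g : SL(2, ℤ)) (w : ℍ) :
    2 * ((Gamma N).relIndex Γ : ℝ≥0∞) *
      ∑ i, ENNReal.ofReal (Λ i ^ 2) * ‖(e i : ℍ → ℂ) (g • w)‖ₑ ^ 2 ≤
        ∑' E : DelC Γ N 1 g, b2 ρ ρ w (sQ 1 (E : Mt) • w) := by
  have h1 := (P7.p7 P6.p6 : S_bes) N hN Γ hΓ ρ hρ k e he hinv Λ hΛ Unit {()} (fun _ => 1)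
    (fun _ => g • w) (g • w) (fun _ => 1) (fun _ _ => zero_le_one) (fun i => by simp)
  simp only [Finset.sum_singleton, mul_one, ENNReal.ofReal_one, one_mul] at h1
  refine h1.trans ?_
  rw [← P11.p11 Γ N 1 g (b2 ρ ρ) (P11.b2_inv ρ) w]
  have h2 : ∀ δ : Γ, b2 ρ ρ (g • w) ((δ : SL(2, ℤ)) • g • w) =
      (fun E : Del Γ N 1 => b2 ρ ρ (g • w) (sQ 1 (E : Mt) • g • w))
        ⟨((δ : SL(2, ℤ)) : Mt), mem_del_one N δ.2⟩ := by
    intro δ
    simp only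
    rw [sQ_one_coe, P11.gR_smul]
  simp only [h2]
  refine ENNReal.tsum_comp_le_tsum_of_injective
    (f := fun δ : Γ => (⟨((δ : SL(2, ℤ)) : Mt), mem_del_one N δ.2⟩ : Del Γ N 1)) ?_
    (fun E : Del Γ N 1 => b2 ρ ρ (g • w) (sQ 1 (E : Mt) • g • w))
  intro δ δ' h
  have h3 : ((δ : SL(2, ℤ)) : Mt) = ((δ' : SL(2, ℤ)) : Mt) :=
    congrArg (fun E : Del Γ N 1 => (E : Mt)) h
  exact Subtype.ext (Subtype.ext h3)

/-- W5: Weyl's bound -/
theorem w5 (hgeo : Pool.Agent.H486.LP.S_geoZ) : S_weyl := by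
  classical
  obtain ⟨η, hη, C, hC, hgeo⟩ := hgeo (1 / 2) (by norm_num) (by norm_num)
  refine ⟨512 * C, by positivity, ?_⟩
  intro T₀ hT₀ Γ N hlev k t ht0 htT e he heT
  set T : ℝ := max T₀ 3 with hTdef
  have hTT : T₀ ≤ T := le_max_left _ _
  have hT3 : 3 ≤ T := le_max_right _ _
  have hT0 : 0 ≤ T := by linarith
  have hTle : 1 + T ≤ 4 * (1 + T₀) := by
    rcases le_total T₀ 3 with h | h
    · rw [hTdef, max_eq_right h]
      linarith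
    · rw [hTdef, max_eq_left h]
      linarith
  set R : ℝ := 1 / 4 + T ^ 2 with hRdef
  have hR : 0 ≤ R := by positivity
  set ρ : ℝ := 1 / (2 * (1 + T)) with hρdef
  have hT1 : 0 < 1 + T := by linarith
  have hρ0 : 0 < ρ := by positivity
  have hρ1 : ρ ≤ 1 / 2 := by
    rw [hρdef, div_le_div_iff₀ (by positivity) (by norm_num)]
    linarith
  have hbv := bv_pos hρ0
  have hbv2 : (bv ρ)⁻¹ ≤ 4 * (1 + T) ^ 2 := by
    rw [inv_le_iff_one_le_mul₀ hbv]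
    have h1 := Qb.qb ρ hρ0 hρ1
    have h2 : (1 : ℝ) = 4 * (1 + T) ^ 2 * ρ ^ 2 := by
      rw [hρdef]
      field_simp
      ring
    calc (1 : ℝ) = 4 * (1 + T) ^ 2 * ρ ^ 2 := h2
      _ ≤ 4 * (1 + T) ^ 2 * bv ρ := by gcongr
  have hN := hlev.1
  have hΓ := hlev.2.1
  have : NeZero N := ⟨hN.ne'⟩
  have : Countable (SL(2, ℤ) ⧸ Gamma N) := Quotient.countable
  have hfi : Γ.FiniteIndex := Subgroup.finiteIndex_of_le hΓ
  set n : ℝ := (Γ.index : ℝ) with hn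
  have hn1 : 1 ≤ n := by
    have h : Γ.index ≠ 0 := hfi.index_ne_zero
    rw [hn]
    exact_mod_cast Nat.one_le_iff_ne_zero.2 h
  have hn0 : 0 ≤ n := by linarith
  set r : ℝ≥0∞ := ((Gamma N).relIndex Γ : ℝ≥0∞) with hr
  have hr0 : r ≠ 0 := by
    have h : (Gamma N).relIndex Γ ≠ 0 := by
      rw [Subgroup.relIndex]
      exact Subgroup.FiniteIndex.index_ne_zero
    rw [hr]
    exact_mod_cast h
  have hrt : r ≠ ∞ := ENNReal.natCast_ne_top _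
  have heT1 : ∀ i, ∀ γ ∈ Γ, ∀ z : ℍ, (e i : ℍ → ℂ) (γ • z) = (e i : ℍ → ℂ) z :=
    fun i => (heT i).1
  have heT2 : ∀ i, ∀ ρ : ℝ, 0 < ρ → t i * ρ ≤ 1 / 2 → ∀ z : ℍ,
      Av ρ (e i : ℍ → ℂ) z = (lamT (t i) ρ : ℂ) * (e i : ℍ → ℂ) z := fun i => (heT i).2.1
  have heT3 : ∀ i, ∃ F : ℂ → ℂ, Cusp0 Γ (1 / 4 + t i ^ 2) F ∧
      ∀ z : ℍ, (e i : ℍ → ℂ) z = F z := fun i => (heT i).2.2
  have htρ : ∀ i, t i * ρ ≤ 1 / 2 := by
    intro i
    have h1 : t i ≤ 1 + T := by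
      have := htT i
      linarith
    have h2 : (1 + T) * ρ = 1 / 2 := by
      rw [hρdef]
      field_simp
    calc t i * ρ ≤ (1 + T) * ρ := mul_le_mul_of_nonneg_right h1 hρ0.le
      _ = 1 / 2 := h2
  set Λ : Fin k → ℝ := fun i => lamT (t i) ρ with hΛdef
  have hΛ1 : ∀ i, 1 / 2 ≤ Λ i := fun i => P12.half_le hρ0 hρ1 (ht0 i) (htρ i)
  have hΛ : ∀ i, ∀ z : ℍ, Av ρ (e i : ℍ → ℂ) z = (Λ i : ℂ) * (e i : ℍ → ℂ) z :=
    fun i z => heT2 i ρ hρ0 (htρ i) z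
  have hgood : ∀ i, 1 ≤ 2 * ∑' g : SL(2, ℤ) ⧸ Gamma N, ∫⁻ z in AAC (1 + R) Γ g.out,
      ‖(e i : ℍ → ℂ) (g.out • z)‖ₑ ^ 2 := by
    intro i
    have h1 : 0 ≤ 1 / 4 + t i ^ 2 := by positivity
    have h2 : 1 / 4 + t i ^ 2 ≤ R := by
      have h3 := ht0 i
      have h4 := htT i
      rw [hRdef]
      have h5 : t i ≤ T := by linarith
      have h6 : t i ^ 2 ≤ T ^ 2 := pow_le_pow_left₀ h3 h5 2
      linarith
    have := P13.p13 R hR N hN Γ hΓ (e i) (he.1 i) (heT1 i) (1 / 4 + t i ^ 2) h1 h2 (heT3 i)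
    calc (1 : ℝ≥0∞) = 2 * 2⁻¹ := (ENNReal.mul_inv_cancel (by norm_num) (by norm_num)).symm
      _ ≤ _ := by gcongr
  have hmeas : ∀ (i : Fin k) (g : SL(2, ℤ)),
      Measurable fun z : ℍ => ‖(e i : ℍ → ℂ) (g • z)‖ₑ ^ 2 := fun i g =>
    ((LW.cont (e i)).comp (cont_smul_int g)).measurable.enorm.pow_const 2
  have hspec : r * ∑ i, ENNReal.ofReal (Λ i ^ 2) ≤
      ∑' g : SL(2, ℤ) ⧸ Gamma N, ∫⁻ w in AAC (1 + R) Γ g.out,
        ∑' E : DelC Γ N 1 g.out, b2 ρ ρ w (sQ 1 (E : Mt) • w) := by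
    calc r * ∑ i, ENNReal.ofReal (Λ i ^ 2)
        ≤ r * ∑ i, ENNReal.ofReal (Λ i ^ 2) * (2 * ∑' g : SL(2, ℤ) ⧸ Gamma N,
            ∫⁻ z in AAC (1 + R) Γ g.out, ‖(e i : ℍ → ℂ) (g.out • z)‖ₑ ^ 2) := by
          gcongr with i
          calc ENNReal.ofReal (Λ i ^ 2) = ENNReal.ofReal (Λ i ^ 2) * 1 :=
                (mul_one _).symm
            _ ≤ _ := by gcongr; exact hgood i
      _ = ∑' g : SL(2, ℤ) ⧸ Gamma N, ∑ i, (2 * r) * (ENNReal.ofReal (Λ i ^ 2) *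
            ∫⁻ z in AAC (1 + R) Γ g.out, ‖(e i : ℍ → ℂ) (g.out • z)‖ₑ ^ 2) := by
          rw [Summable.tsum_finsetSum fun _ _ => ENNReal.summable, Finset.mul_sum]
          refine Finset.sum_congr rfl fun i _ => ?_
          rw [ENNReal.tsum_mul_left, ENNReal.tsum_mul_left]
          ring
      _ = ∑' g : SL(2, ℤ) ⧸ Gamma N, ∫⁻ z in AAC (1 + R) Γ g.out, (2 * r) *
            ∑ i, ENNReal.ofReal (Λ i ^ 2) * ‖(e i : ℍ → ℂ) (g.out • z)‖ₑ ^ 2 := by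
          congr 1
          ext g
          rw [lintegral_const_mul _ (Finset.measurable_sum _ fun i _ =>
            (hmeas i g.out).const_mul _),
            lintegral_finsetSum _ fun i _ => (hmeas i g.out).const_mul _, Finset.mul_sum]
          refine Finset.sum_congr rfl fun i _ => ?_
          rw [lintegral_const_mul _ (hmeas i g.out)]
      _ ≤ _ := by
          refine ENNReal.tsum_le_tsum fun g => lintegral_mono fun z => ?_
          exact point_le1 hN hΓ hρ0 Λ e he heT1 hΛ g.out z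
  -- a prime which does not divide the level
  obtain ⟨p, hpN1, hp⟩ := Nat.exists_infinite_primes (N + 1)
  have hpN : p.Coprime N := by
    rw [Nat.Prime.coprime_iff_not_dvd hp]
    intro h
    have := Nat.le_of_dvd hN h
    omega
  have hM16 : 16 ≤ n * (1 + T) ^ 2 := by
    have h1 : (16 : ℝ) ≤ (1 + T) ^ 2 := by nlinarith
    nlinarith
  have hM : 4 * (p : ℝ) ^ 0 ≤ (n * (1 + T) ^ 2) ^ ((1 : ℝ) - 1 / 2) := by
    rw [pow_zero, mul_one, show (1 : ℝ) - 1 / 2 = 1 / 2 by norm_num, ← Real.sqrt_eq_rpow]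
    exact Real.le_sqrt_of_sq_le (by linarith)
  have hg := hgeo T hT0 Γ N hlev p 0 hp hpN hM
  rw [pow_zero, pow_zero, one_mul] at hg
  have hrr : r = ENNReal.ofReal ((Gamma N).relIndex Γ : ℝ) := by
    rw [hr, ENNReal.ofReal_natCast]
  set M : ℝ := n * (1 + T) ^ 2 with hMdef
  have hMη : M ^ (-η) ≤ 1 :=
    Real.rpow_le_one_of_one_le_of_nonpos (by linarith) (by linarith)
  have hMη0 : 0 ≤ M ^ (-η) := Real.rpow_nonneg (by linarith) _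
  have hbound : ENNReal.ofReal ((bv ρ)⁻¹ * (C * ((Gamma N).relIndex Γ : ℝ) *
      (n + n * M ^ (-η)))) ≤ r * ENNReal.ofReal (8 * C * n * (1 + T) ^ 2) := by
    rw [hrr, ← ENNReal.ofReal_mul (by positivity)]
    refine ENNReal.ofReal_le_ofReal ?_
    have h1 : n + n * M ^ (-η) ≤ 2 * n := by nlinarith
    calc (bv ρ)⁻¹ * (C * ((Gamma N).relIndex Γ : ℝ) * (n + n * M ^ (-η)))
        ≤ (4 * (1 + T) ^ 2) * (C * ((Gamma N).relIndex Γ : ℝ) * (2 * n)) := by gcongr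
      _ = _ := by ring
  have h3 := (ENNReal.mul_le_mul_iff_right hr0 hrt).1 ((hspec.trans hg).trans hbound)
  rw [← ENNReal.ofReal_sum_of_nonneg (fun i _ => by positivity),
    ENNReal.ofReal_le_ofReal_iff (by positivity)] at h3
  have h4 : (k : ℝ) ≤ 4 * ∑ i, Λ i ^ 2 := by
    rw [Finset.mul_sum]
    calc (k : ℝ) = ∑ _i : Fin k, (1 : ℝ) := by simp
      _ ≤ _ := by
        refine Finset.sum_le_sum fun i _ => ?_
        have h5 := hΛ1 i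
        nlinarith
  have h6 : (1 + T) ^ 2 ≤ 16 * (1 + T₀) ^ 2 := by
    have h7 : (1 + T) ^ 2 ≤ (4 * (1 + T₀)) ^ 2 := pow_le_pow_left₀ hT1.le hTle 2
    nlinarith
  calc (k : ℝ) ≤ 4 * ∑ i, Λ i ^ 2 := h4
    _ ≤ 4 * (8 * C * n * (1 + T) ^ 2) := by linarith
    _ ≤ 4 * (8 * C * n * (16 * (1 + T₀) ^ 2)) := by gcongr
    _ = 512 * C * n * (1 + T₀) ^ 2 := by ring

end

end Pool.Agent.H81.LW
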